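import Pool.Agent.H97.RK.Targets

/-!
# Board `rks_modules`, row FGT: variables are forgotten
-/

set_option autoImplicit false

namespace Pool.Agent.H33.RKS

open Finset
open Pool.Agent.H97.RK

theorem pf_FGT (hFIX : T_FIX) (hCLO : T_CLO) : T_FGT := by
  classical
  intro n k m F j t d e s₀ hP y A A₀ W J h hA hn
  obtain ⟨W1, J1, -, -, hmem, halv, hcrd, hlt, hal, hout⟩ := hCLO n k m F j t d e hP.x2 hP.je
    y A₀ ∅ ∅ (by simp) (by simp) (by simp) (by rw [card_empty]; exact hP.t1) hn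
  -- the clauses which are not yet satisfied
  obtain ⟨S, hS⟩ : ∃ S : Finset (Fin m), ∀ c, c ∈ S ↔ c ∈ J1 ∧ Al F y A c ∧ c ∉ J :=
    ⟨J1.filter fun c => Al F y A c ∧ c ∉ J, fun c => by rw [mem_filter]⟩
  have hSJ : S.card ≤ J1.card := card_le_card fun c hc => ((hS c).1 hc).1
  have hSt : S.card ≤ t := by omega
  have hfix : ∃ y' : Fin n → Bool, (∀ u ∈ A ∪ W, y' u = y u) ∧
      (∀ c ∈ S, ∃ i, (F c i).1 ∉ A ∪ W ∧ y' (F c i).1 = (F c i).2) ∧ dst y' y ≤ S.card := by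
    rcases S.eq_empty_or_nonempty with h0 | ⟨c0, hc0⟩
    · refine ⟨y, fun u _ => rfl, ?_, ?_⟩
      · rw [h0]
        simp
      · simp [dst]
    · have hk : 0 < k := lt_of_le_of_lt (Nat.zero_le _) hP.jk
      refine hFIX n k m F j s₀ hP.x1 y (A ∪ W) (F c0 ⟨0, hk⟩).1 S ?_ ?_
      · have := hP.ts
        omega
      · intro c hc
        obtain ⟨-, h2, h3⟩ := (hS c).1 hc
        refine lt_of_lt_of_le (h.out c h3 h2) ?_
        unfold out
        refine card_le_card fun i hi => ?_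
        rw [mem_filter] at hi ⊢
        exact ⟨hi.1, fun h4 => hi.2 (mem_of_mem_erase h4)⟩
  obtain ⟨y', hy1, hy2, hy3⟩ := hfix
  have hyA : ∀ u ∈ A, y' u = y u := fun u hu => hy1 u (mem_union_left _ hu)
  have hyA0 : ∀ u ∈ A₀, y' u = y u := fun u hu => hyA u (hA hu)
  refine ⟨y', W1, J1, ⟨fun c hc => ?_, hmem, fun c hc i hi => ?_, fun c hc hc2 => ?_, hcrd, hlt⟩,
    hyA0, le_trans hy3 hSt⟩
  · by_cases hJ : c ∈ J
    · obtain ⟨i, hi1, hi2⟩ := h.sat c hJ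
      exact ⟨i, hmem c hc i, by rw [hy1 _ hi1, hi2]⟩
    · by_cases h2 : Al F y A c
      · obtain ⟨i, -, hi⟩ := hy2 c ((hS c).2 ⟨hc, h2, hJ⟩)
        exact ⟨i, hmem c hc i, hi⟩
      · unfold Al at h2
        push Not at h2
        obtain ⟨i, hi1, hi2⟩ := h2
        exact ⟨i, hmem c hc i, by rw [hyA _ hi1, hi2]⟩
  · rw [hyA0 _ (mem_sdiff.1 hi).1]
    exact halv c hc i hi
  · refine hout c hc fun i hi => ?_
    rw [← hyA0 _ hi]
    exact hc2 i hi

end Pool.Agent.H33.RKS
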